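import Pool.Agent.helper51.QS.SpecA
import Pool.Agent.helper13.PC.ASA

/-!
# Project qs (MP_74cfa5_ag), row DET
-/

set_option autoImplicit false

namespace Pool.Agent.QS

universe u

open Pool.Agent.PC

/-- the entries of the adjugate of a matrix over the valuation ring -/
theorem DET_adj {K : Type u} [Field K] {v : K → ℤ} (hv : DVal v) {n : ℕ}
    (M : Matrix (Fin n) (Fin n) K) (hM : ∀ i l, Ge v 0 (M i l)) (i l : Fin n) :
    Ge v 0 (M.adjugate i l) := by
  obtain ⟨M', hM'⟩ : ∃ M' : Matrix (Fin n) (Fin n) (ASA_V hv),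
      (ASA_V hv).subtype.mapMatrix M' = M :=
    ⟨Matrix.of fun i l => ⟨M i l, hM i l⟩, by ext i l; rfl⟩
  rw [← hM', ← RingHom.map_adjugate]
  exact (M'.adjugate i l).2

theorem DET : DET_stmt.{u} := by
  intro K _ v hv n M ℓ e j i0 hM hl h0 hj
  have h1 : M.adjugate.mulVec (M.mulVec ℓ) = M.det • ℓ := by
    rw [Matrix.mulVec_mulVec, Matrix.adjugate_mul, Matrix.smul_mulVec, Matrix.one_mulVec]
  have h2 := congrFun h1 i0
  have h3 : Ge v e (M.adjugate.mulVec (M.mulVec ℓ) i0) := by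
    show Ge v e (∑ i, M.adjugate i0 i * ∑ l, M i l * ℓ l)
    apply ASA_Gsum hv
    intro i _
    have h4 := ASA_Gmul hv (DET_adj hv M hM i0 i) (hl i)
    rwa [zero_add] at h4
  rw [h2, Pi.smul_apply, smul_eq_mul] at h3
  by_cases hd : M.det = 0
  · exact Or.inl hd
  · right
    have h5 := h3.resolve_left (mul_ne_zero hd h0)
    rw [hv.mul _ _ hd h0, hj] at h5
    omega

end Pool.Agent.QS
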