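import Pool.Agent.helper51.QS.SpecB
import Pool.Agent.helper13.PC.ASA

/-!
# Project qs (MP_74cfa5_ag), row EHQ: the order of the pull back of a form
-/

set_option autoImplicit false

namespace Pool.Agent.QS

universe u

open Pool.Agent.PC

section

variable {F K : Type u} [Field F] [Field K] [Algebra F K] {v : K → ℤ}

theorem EHQ_ne {x : F} (hx : x ≠ 0) : algebraMap F K x ≠ 0 := by
  intro h
  exact hx ((algebraMap F K).injective (by rw [h, map_zero]))

theorem EHQ_dvd (hv : DVal v) {O : ValuationSubring F} {w : F} (hR : Restr v O w) {x : F}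
    (hx : x ≠ 0) : ∃ r : ℤ, v (algebraMap F K x) = r * v (algebraMap F K w) := by
  obtain ⟨hO, hU, he, -⟩ := hR
  obtain ⟨hw0, hnu⟩ := hU
  obtain ⟨e, hed⟩ : ∃ e, e = v (algebraMap F K w) := ⟨_, rfl⟩
  obtain ⟨a, had⟩ : ∃ a, a = v (algebraMap F K x) := ⟨_, rfl⟩
  rw [← hed] at he ⊢
  rw [← had]
  have hdm := Int.emod_add_mul_ediv a e
  have hm0 := Int.emod_nonneg a he.ne'
  have hm1 := Int.emod_lt_of_pos a he
  obtain ⟨q, hq⟩ : ∃ q, q = a / e := ⟨_, rfl⟩
  obtain ⟨x', hx'⟩ : ∃ x' : F, x' = x * w ^ (-q) := ⟨_, rfl⟩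
  have hx'0 : x' ≠ 0 := by
    rw [hx']
    exact mul_ne_zero hx (zpow_ne_zero _ hw0)
  have hvx' : v (algebraMap F K x') = a % e := by
    rw [hx', map_mul, map_zpow₀, hv.mul _ _ (EHQ_ne hx) (zpow_ne_zero _ (EHQ_ne hw0)),
      ASA_zpow hv (EHQ_ne hw0), ← hed, ← had]
    rw [← hq] at hdm
    linarith
  have hmem : x' ∈ O := (hO x').2 (Or.inr (by rw [hvx']; exact hm0))
  by_cases hz : a % e = 0
  · refine ⟨q, ?_⟩
    rw [hz, ← hq] at hdm
    linarith
  · exfalso
    have hpos : 0 < a % e := lt_of_le_of_ne hm0 (Ne.symm hz)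
    have hnon : x' ∈ O.nonunits := by
      rw [ValuationSubring.mem_nonunits_iff]
      refine lt_of_le_of_ne ((O.valuation_le_one_iff x').2 hmem) ?_
      intro h1
      have h2 : x'⁻¹ ∈ O := by
        rw [← O.valuation_le_one_iff, map_inv₀, h1, inv_one]
      have h3 := ((hO _).1 h2).resolve_left (EHQ_ne (inv_ne_zero hx'0))
      rw [map_inv₀, ASA_inv hv (EHQ_ne hx'0), hvx'] at h3
      omega
    obtain ⟨y, hy, hxy⟩ := (hnu x').1 hnon
    have hy0 : y ≠ 0 := by
      intro h
      rw [h, mul_zero] at hxy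
      exact hx'0 hxy
    have h4 := ((hO _).1 hy).resolve_left (EHQ_ne hy0)
    have h5 : v (algebraMap F K x') = e + v (algebraMap F K y) := by
      rw [hxy, map_mul, hv.mul _ _ (EHQ_ne hw0) (EHQ_ne hy0), ← hed]
    omega

end

theorem EHQ : EHQ_stmt.{u} := by
  intro k F K _ _ _ _ _ _ _ n D Ψ hΨ v hv O w hR h1 ω g μ s t b β hω hg hμ hs ht hβ hβ0 hb
  obtain ⟨hΨ1, hΨ2, hΨ3⟩ := hΨ
  have hdvd := fun {x : F} (hx : x ≠ 0) => EHQ_dvd hv hR hx
  obtain ⟨hO, hU, he, hH⟩ := hR
  have hw0 := hU.1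
  have hh0 : Ψ ω ≠ 0 := fun h => hω (hΨ2 ω h)
  have hg' := (hH g t hg).1 ht
  obtain ⟨e, hed⟩ : ∃ e, e = v (algebraMap F K w) := ⟨_, rfl⟩
  rw [← hed] at he hg'
  rw [hg']
  have hle : v (Ψ ω) ≤ e * s := by
    by_contra hcon
    rw [not_le] at hcon
    -- all generators have a positive value
    have hgen : ∀ z ∈ AddSubgroup.closure {z | ∃ o : K, Ge v 0 o ∧ ∃ c : Fin n → F,
        (∀ i, c i ∈ O) ∧ z = o * JJ D fun l => algebraMap F K (c l)}, Ge v 1 z := by
      intro z hz
      induction hz using AddSubgroup.closure_induction with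
      | mem z hz =>
        obtain ⟨o, ho, c, hc, rfl⟩ := hz
        rw [← hΨ1 c]
        obtain ⟨x, hx⟩ := hΨ3 ω (dd k c) hω
        rw [hx, map_smul, Algebra.smul_def]
        by_cases hx0 : x = 0
        · left
          rw [hx0, map_zero, zero_mul, mul_zero]
        · have hgx : Ge v 1 (algebraMap F K x * Ψ ω) := by
            right
            rw [hv.mul _ _ (EHQ_ne hx0) hh0]
            by_contra hc1
            rw [not_le] at hc1
            apply hs.2
            obtain ⟨r, hr⟩ := hdvd hx0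
            rw [← hed] at hr
            have hrs : r ≤ -(s + 1) := by
              have h3 : r * e < -(e * s) := by
                rw [← hr]
                omega
              by_contra h4
              rw [not_le] at h4
              have h5 : -s ≤ r := by omega
              have h6 : -s * e ≤ r * e := mul_le_mul_of_nonneg_right h5 he.le
              linarith
            refine ⟨w, hU, (w ^ (-(s + 1)) * x⁻¹) • dd k c, ?_, ?_⟩
            · apply AddSubgroup.subset_closure
              refine ⟨_, ?_, c, hc, rfl⟩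
              rw [hO]
              right
              rw [map_mul, map_zpow₀, map_inv₀, hv.mul _ _ (zpow_ne_zero _ (EHQ_ne hw0))
                (inv_ne_zero (EHQ_ne hx0)), ASA_zpow hv (EHQ_ne hw0), ASA_inv hv (EHQ_ne hx0),
                ← hed, hr]
              have h7 : 0 ≤ (-(s + 1) - r) * e := mul_nonneg (by omega) he.le
              linarith
            · rw [hx, smul_smul, smul_smul]
              have h8 : w ^ (s + 1) * (w ^ (-(s + 1)) * x⁻¹) * x = 1 := by
                rw [mul_assoc, inv_mul_cancel_right₀ hx0, ← zpow_add₀ hw0, add_neg_cancel,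
                  zpow_zero]
              rw [h8, one_smul]
          have h9 := ASA_Gmul hv ho hgx
          rwa [zero_add] at h9
      | zero => exact Or.inl rfl
      | add x y _ _ hx hy => exact ASA_Gadd hv hx hy
      | neg x _ hx => exact ASA_Gneg hv hx
    have h10 := (hgen 1 h1).resolve_left one_ne_zero
    rw [ASA_v1 hv] at h10
    omega
  -- numbers
  have hQ : ((μ : ℤ) * b : ℤ) ≤ e * (t - μ * s) := by
    have hc : (((μ : ℤ) * b : ℤ) : ℚ) ≤ ((e * (t - μ * s) : ℤ) : ℚ) := by
      push_cast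
      have h11 : (t : ℚ) - μ * s = μ * β := by
        rw [← hβ]
        ring
      rw [h11]
      have hμ' : (0 : ℚ) ≤ μ := Nat.cast_nonneg μ
      have he' : (1 : ℚ) ≤ e := by exact_mod_cast he
      have h12 : (μ : ℚ) * b ≤ μ * β := mul_le_mul_of_nonneg_left hb hμ'
      have h13 : (1 : ℚ) * (μ * β) ≤ e * (μ * β) :=
        mul_le_mul_of_nonneg_right he' (mul_nonneg hμ' hβ0)
      linarith
    exact_mod_cast hc
  have hμ'' : (0 : ℤ) ≤ μ := Int.natCast_nonneg μ
  have h14 : (μ : ℤ) * v (Ψ ω) ≤ μ * (e * s) := mul_le_mul_of_nonneg_left hle hμ''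
  linarith

end Pool.Agent.QS
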