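import Pool.Agent.helper32.QS.Spec

set_option autoImplicit false

namespace QS

theorem PR2_mem {Ω : Type} [Finite Ω] (σ : Equiv.Perm Ω) (Δ : Set Ω) (h : ∀ ω ∈ Δ, σ ω ∈ Δ)
    (g : Equiv.Perm Ω) (hg : g ∈ Subgroup.zpowers σ) : ∀ ω ∈ Δ, g ω ∈ Δ := by
  have h1 : g ∈ Submonoid.powers σ := (isOfFinOrder_of_finite σ).mem_powers_iff_mem_zpowers.2 hg
  obtain ⟨n, hn⟩ := h1
  have h2 : ∀ n : ℕ, ∀ ω ∈ Δ, (σ ^ n) ω ∈ Δ := by
    intro n
    induction n with
    | zero => intro ω hω; simpa using hω
    | succ n ih =>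
      intro ω hω
      rw [pow_succ', Equiv.Perm.mul_apply]
      exact h _ (ih ω hω)
  intro ω hω
  rw [← hn]
  exact h2 n ω hω

/-- invariant subsets and sets of orbits -/
noncomputable def PR2_eq {Ω : Type} [Finite Ω] (σ : Equiv.Perm Ω) :
    {Δ : Set Ω // ∀ ω ∈ Δ, σ ω ∈ Δ} ≃
      Set (Quotient (MulAction.orbitRel (Subgroup.zpowers σ) Ω)) where
  toFun Δ := {q | ∃ ω ∈ Δ.1, Quotient.mk _ ω = q}
  invFun T := ⟨{ω | Quotient.mk (MulAction.orbitRel (Subgroup.zpowers σ) Ω) ω ∈ T}, by
    intro ω hω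
    have h1 : (Quotient.mk (MulAction.orbitRel (Subgroup.zpowers σ) Ω) (σ ω)) =
        Quotient.mk (MulAction.orbitRel (Subgroup.zpowers σ) Ω) ω := by
      apply Quotient.sound
      exact ⟨⟨σ, Subgroup.mem_zpowers σ⟩, rfl⟩
    show Quotient.mk _ (σ ω) ∈ T
    rw [h1]
    exact hω⟩
  left_inv := by
    rintro ⟨Δ, hΔ⟩
    apply Subtype.ext
    ext ω
    constructor
    · rintro ⟨ω', hω', he⟩
      obtain ⟨g, hg⟩ := Quotient.exact he
      have h1 := PR2_mem σ Δ hΔ (g : Equiv.Perm Ω)⁻¹ (Subgroup.inv_mem _ g.2) ω' hω'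
      have h2 : (g : Equiv.Perm Ω) ω = ω' := hg
      rw [← h2] at h1
      have h3 : ((g : Equiv.Perm Ω)⁻¹) ((g : Equiv.Perm Ω) ω) = ω :=
        (g : Equiv.Perm Ω).symm_apply_apply ω
      rw [h3] at h1
      exact h1
    · intro hω
      exact ⟨ω, hω, rfl⟩
  right_inv := by
    intro T
    ext q
    constructor
    · rintro ⟨ω, hω, he⟩
      rw [← he]
      exact hω
    · intro hq
      induction q using Quotient.inductionOn with
      | h ω => exact ⟨ω, hq, rfl⟩

theorem PR2_orb {Ω : Type} [Finite Ω] (p : ℕ) (hp : p.Prime) (σ : Equiv.Perm Ω) (hσ : σ ^ p = 1) :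
    Nat.card (Quotient (MulAction.orbitRel (Subgroup.zpowers σ) Ω)) =
      Nat.card {ω : Ω // σ ω = ω} + (Nat.card Ω - Nat.card {ω : Ω // σ ω = ω}) / p := by
  classical
  have : Fintype Ω := Fintype.ofFinite Ω
  have : Fintype (Subgroup.zpowers σ) := Fintype.ofFinite _
  have : ∀ a : Subgroup.zpowers σ, Fintype (MulAction.fixedBy Ω a) := fun a => Fintype.ofFinite _
  have : Fintype (Quotient (MulAction.orbitRel (Subgroup.zpowers σ) Ω)) := Fintype.ofFinite _
  have hB := MulAction.sum_card_fixedBy_eq_card_orbits_mul_card_group (Subgroup.zpowers σ) Ω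
  have hle : Nat.card {ω : Ω // σ ω = ω} ≤ Nat.card Ω := Nat.card_le_card_of_injective
    (fun ω : {ω : Ω // σ ω = ω} => (ω : Ω)) Subtype.val_injective
  by_cases h1 : σ = 1
  · have hc : Fintype.card (Subgroup.zpowers σ) = 1 := by
      rw [← Nat.card_eq_fintype_card, Nat.card_zpowers, h1, orderOf_one]
    have hf : Nat.card {ω : Ω // σ ω = ω} = Nat.card Ω := by
      apply Nat.card_congr
      exact Equiv.subtypeUnivEquiv (fun ω => by rw [h1]; rfl)
    have hs : ∀ a : Subgroup.zpowers σ, Fintype.card (MulAction.fixedBy Ω a) = Nat.card Ω := by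
      intro a
      have ha : (a : Equiv.Perm Ω) = 1 := by
        obtain ⟨k, hk⟩ := Subgroup.mem_zpowers_iff.1 a.2
        rw [← hk, h1, one_zpow]
      rw [← Nat.card_eq_fintype_card]
      apply Nat.card_congr
      refine Equiv.subtypeUnivEquiv (fun ω => ?_)
      show (a : Equiv.Perm Ω) ω = ω
      rw [ha]
      rfl
    rw [Finset.sum_congr rfl (fun a _ => hs a), Finset.sum_const, Finset.card_univ, hc, one_smul,
      mul_one] at hB
    rw [Nat.card_eq_fintype_card, ← hB, hf, Nat.sub_self, Nat.zero_div, add_zero]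
  · have ho : orderOf σ = p := by
      rcases (Nat.dvd_prime hp).1 (orderOf_dvd_of_pow_eq_one hσ) with h | h
      · exact absurd (orderOf_eq_one_iff.1 h) h1
      · exact h
    have hc : Fintype.card (Subgroup.zpowers σ) = p := by
      rw [← Nat.card_eq_fintype_card, Nat.card_zpowers, ho]
    have hfix : ∀ a : Subgroup.zpowers σ, a ≠ 1 →
        Fintype.card (MulAction.fixedBy Ω a) = Nat.card {ω : Ω // σ ω = ω} := by
      intro a ha
      rw [← Nat.card_eq_fintype_card]
      apply Nat.card_congr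
      refine Equiv.subtypeEquivRight (fun ω => ?_)
      constructor
      · intro h
        have h2 : a ∈ MulAction.stabilizer (Subgroup.zpowers σ) ω := h
        have : Fact (Nat.card (Subgroup.zpowers σ)).Prime := by
          rw [Nat.card_eq_fintype_card, hc]
          exact ⟨hp⟩
        rcases Subgroup.eq_bot_or_eq_top_of_prime_card
          (MulAction.stabilizer (Subgroup.zpowers σ) ω) with h3 | h3
        · rw [h3] at h2
          exact absurd (Subgroup.mem_bot.1 h2) ha
        · have h4 : (⟨σ, Subgroup.mem_zpowers σ⟩ : Subgroup.zpowers σ) ∈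
              MulAction.stabilizer (Subgroup.zpowers σ) ω := by
            rw [h3]
            exact Subgroup.mem_top _
          exact h4
      · intro h
        have h2 : (⟨σ, Subgroup.mem_zpowers σ⟩ : Subgroup.zpowers σ) ∈
            MulAction.stabilizer (Subgroup.zpowers σ) ω := h
        have h3 : ∀ k : ℤ, (⟨σ, Subgroup.mem_zpowers σ⟩ : Subgroup.zpowers σ) ^ k ∈
            MulAction.stabilizer (Subgroup.zpowers σ) ω := fun k => Subgroup.zpow_mem _ h2 k
        obtain ⟨k, hk⟩ := Subgroup.mem_zpowers_iff.1 a.2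
        have h4 : (⟨σ, Subgroup.mem_zpowers σ⟩ : Subgroup.zpowers σ) ^ k = a := by
          apply Subtype.ext
          rw [Subgroup.coe_zpow]
          exact hk
        have h5 := h3 k
        rw [h4] at h5
        exact h5
    have hone : Fintype.card (MulAction.fixedBy Ω (1 : Subgroup.zpowers σ)) = Nat.card Ω := by
      rw [← Nat.card_eq_fintype_card]
      apply Nat.card_congr
      exact Equiv.subtypeUnivEquiv (fun ω => one_smul _ ω)
    rw [← Finset.add_sum_erase _ _ (Finset.mem_univ (1 : Subgroup.zpowers σ)),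
      Finset.sum_congr rfl (fun a ha => hfix a (Finset.ne_of_mem_erase ha)), Finset.sum_const,
      Finset.card_erase_of_mem (Finset.mem_univ _), Finset.card_univ, hc, hone, smul_eq_mul] at hB
    rw [Nat.card_eq_fintype_card]
    generalize Fintype.card (Quotient (MulAction.orbitRel (Subgroup.zpowers σ) Ω)) = r at hB ⊢
    generalize Nat.card {ω : Ω // σ ω = ω} = f at hB hle ⊢
    generalize Nat.card Ω = n at hB hle ⊢
    obtain ⟨d, rfl⟩ := Nat.exists_eq_add_of_le hle
    obtain ⟨q, rfl⟩ : ∃ q, p = q + 1 := ⟨p - 1, by have := hp.pos; omega⟩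
    have h6 : d = (r - f) * (q + 1) ∧ f ≤ r := by
      have h7 : f + d + q * f = r * (q + 1) := by simpa using hB
      have h8 : f * (q + 1) + d = r * (q + 1) := by linarith
      have h9 : f ≤ r := by
        have : f * (q + 1) ≤ r * (q + 1) := by omega
        exact Nat.le_of_mul_le_mul_right this (Nat.succ_pos q)
      refine ⟨?_, h9⟩
      rw [Nat.sub_mul]
      omega
    rw [show f + d - f = d by omega, h6.1, Nat.mul_div_cancel _ (Nat.succ_pos q)]
    omega

theorem PR2 : PR2_stmt := by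
  classical
  intro S Ω _ _ _ p hp x hx
  have hσ : (MulAction.toPerm x : Equiv.Perm Ω) ^ p = 1 := by
    have h1 : ((MulAction.toPermHom S Ω) x) ^ p = (MulAction.toPermHom S Ω) (x ^ p) :=
      (map_pow _ _ _).symm
    ext ω
    have h2 := congrArg (fun s : Equiv.Perm Ω => s ω) h1
    exact h2.trans (hx ω)
  have h1 := Nat.card_congr (PR2_eq (MulAction.toPerm x : Equiv.Perm Ω))
  have h2 := PR2_orb p hp (MulAction.toPerm x : Equiv.Perm Ω) hσ
  have h3 : Nat.card (Set (Quotient (MulAction.orbitRel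
      (Subgroup.zpowers (MulAction.toPerm x : Equiv.Perm Ω)) Ω))) =
      2 ^ Nat.card (Quotient (MulAction.orbitRel
      (Subgroup.zpowers (MulAction.toPerm x : Equiv.Perm Ω)) Ω)) := by
    have : Fintype (Quotient (MulAction.orbitRel
      (Subgroup.zpowers (MulAction.toPerm x : Equiv.Perm Ω)) Ω)) := Fintype.ofFinite _
    rw [Nat.card_eq_fintype_card, Nat.card_eq_fintype_card, Fintype.card_set]
  rw [h3, h2] at h1
  exact h1

end QS
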