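import Pool.Agent.helper4.QS.Spec

/-!
# qs: CAT (helper77)
-/

set_option autoImplicit false

open scoped BigOperators ComplexOrder

namespace Pool.Agent.QS

open Pool.Agent.helper86.CM

noncomputable section

theorem CAT_par : ∀ a b c d : ZMod 2, a * c = 0 → b * d = 0 → a * d - b * c = 1 → a + d = 0 := by
  decide

theorem CAT_act (A : Matrix (Fin 1 ⊕ Fin 1) (Fin 1 ⊕ Fin 1) ℤ) (n : Lat 1) :
    act A 1 n (Sum.inl 0) = A (Sum.inl 0) (Sum.inl 0) * n (Sum.inl 0) +
        A (Sum.inl 0) (Sum.inr 0) * n (Sum.inr 0) ∧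
    act A 1 n (Sum.inr 0) = A (Sum.inr 0) (Sum.inl 0) * n (Sum.inl 0) +
        A (Sum.inr 0) (Sum.inr 0) * n (Sum.inr 0) := by
  unfold act
  rw [pow_one]
  constructor <;> simp [Matrix.mulVec, dotProduct, Fintype.sum_sum_type]

theorem CAT : CAT_stmt := by
  intro A hA hq ht
  obtain ⟨a, ha⟩ : ∃ a, a = A (Sum.inl 0) (Sum.inl 0) := ⟨_, rfl⟩
  obtain ⟨b, hb⟩ : ∃ b, b = A (Sum.inl 0) (Sum.inr 0) := ⟨_, rfl⟩
  obtain ⟨c, hc⟩ : ∃ c, c = A (Sum.inr 0) (Sum.inl 0) := ⟨_, rfl⟩
  obtain ⟨d, hd⟩ : ∃ d, d = A (Sum.inr 0) (Sum.inr 0) := ⟨_, rfl⟩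
  have hdet : a * d - b * c = 1 := by
    have h := (SymplecticGroup.mem_iff).1 hA
    have h2 := congrFun (congrFun h (Sum.inl 0)) (Sum.inr 0)
    simp [Matrix.mul_apply, Matrix.J, Fintype.sum_sum_type, Matrix.fromBlocks, ← ha, ← hb, ← hc, ← hd] at h2
    linarith
  have hact : ∀ n : Lat 1, act A 1 n (Sum.inl 0) = a * n (Sum.inl 0) + b * n (Sum.inr 0) ∧
      act A 1 n (Sum.inr 0) = c * n (Sum.inl 0) + d * n (Sum.inr 0) := by
    intro n
    rw [ha, hb, hc, hd]
    exact CAT_act A n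
  have hext : ∀ m n : Lat 1, m (Sum.inl 0) = n (Sum.inl 0) → m (Sum.inr 0) = n (Sum.inr 0) → m = n := by
    intro m n h1 h2
    funext i
    rcases i with i | i
    · rw [Subsingleton.elim i 0]; exact h1
    · rw [Subsingleton.elim i 0]; exact h2
  have htr : A.trace = a + d := by
    simp [Matrix.trace, Fintype.sum_sum_type, ← ha, ← hd]
  let inv : Lat 1 → Lat 1 := fun n => Sum.elim (fun _ => d * n (Sum.inl 0) - b * n (Sum.inr 0))
    (fun _ => -c * n (Sum.inl 0) + a * n (Sum.inr 0))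
  have hinv : ∀ n : Lat 1, inv n (Sum.inl 0) = d * n (Sum.inl 0) - b * n (Sum.inr 0) ∧
      inv n (Sum.inr 0) = -c * n (Sum.inl 0) + a * n (Sum.inr 0) := fun n => ⟨rfl, rfl⟩
  let B : Lat 1 ≃ₗ[ℤ] Lat 1 :=
    { toFun := fun n => act A 1 n
      map_add' := fun m n => by
        refine hext _ _ ?_ ?_
        · rw [Pi.add_apply, (hact _).1, (hact _).1, (hact _).1, Pi.add_apply, Pi.add_apply]; ring
        · rw [Pi.add_apply, (hact _).2, (hact _).2, (hact _).2, Pi.add_apply, Pi.add_apply]; ring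
      map_smul' := fun r n => by
        refine hext _ _ ?_ ?_
        · rw [Pi.smul_apply, (hact _).1, (hact _).1, Pi.smul_apply, Pi.smul_apply]
          simp only [smul_eq_mul, RingHom.id_apply]; ring
        · rw [Pi.smul_apply, (hact _).2, (hact _).2, Pi.smul_apply, Pi.smul_apply]
          simp only [smul_eq_mul, RingHom.id_apply]; ring
      invFun := inv
      left_inv := fun n => by
        refine hext _ _ ?_ ?_
        · rw [(hinv _).1, (hact _).1, (hact _).2]; linear_combination (n (Sum.inl 0)) * hdet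
        · rw [(hinv _).2, (hact _).1, (hact _).2]; linear_combination (n (Sum.inr 0)) * hdet
      right_inv := fun n => by
        refine hext _ _ ?_ ?_
        · show act A 1 (inv n) (Sum.inl 0) = _
          rw [(hact _).1, (hinv _).1, (hinv _).2]; linear_combination (n (Sum.inl 0)) * hdet
        · show act A 1 (inv n) (Sum.inr 0) = _
          rw [(hact _).2, (hinv _).1, (hinv _).2]; linear_combination (n (Sum.inr 0)) * hdet }
  have hB : ∀ n, B n = act A 1 n := fun n => rfl
  have hom : ∀ m n : Lat 1, omega m n = m (Sum.inl 0) * n (Sum.inr 0) - m (Sum.inr 0) * n (Sum.inl 0) := by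
    intro m n
    simp [omega]
  have hqf : ∀ n : Lat 1, qf n = n (Sum.inl 0) * n (Sum.inr 0) := by
    intro n
    simp [qf]
  refine ⟨B, ⟨?_, ?_, ?_, ht⟩, hB⟩
  · intro m n
    rw [hom, hom, hB, hB, (hact _).1, (hact _).2, (hact _).1, (hact _).2]
    linear_combination (m (Sum.inl 0) * n (Sum.inr 0) - m (Sum.inr 0) * n (Sum.inl 0)) * hdet
  · intro n
    rw [hB, hB, htr]
    refine hext _ _ ?_ ?_
    · rw [(hact _).1, (hact _).1, (hact _).2, Pi.sub_apply, Pi.smul_apply, (hact _).1, smul_eq_mul]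
      linear_combination (-(n (Sum.inl 0))) * hdet
    · rw [(hact _).2, (hact _).1, (hact _).2, Pi.sub_apply, Pi.smul_apply, (hact _).2, smul_eq_mul]
      linear_combination (-(n (Sum.inr 0))) * hdet
  · have h1 := hq (Sum.elim (fun _ => 1) (fun _ => 0))
    have h2 := hq (Sum.elim (fun _ => 0) (fun _ => 1))
    rw [hqf, hqf, (hact _).1, (hact _).2] at h1 h2
    simp only [Sum.elim_inl, Sum.elim_inr, mul_one, mul_zero, add_zero, zero_add, sub_zero] at h1 h2
    rw [htr]
    have e := (ZMod.intCast_zmod_eq_zero_iff_dvd (a + d) 2).1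
    refine e ?_
    have g1 : (a : ZMod 2) * c = 0 := by
      have := (ZMod.intCast_zmod_eq_zero_iff_dvd (a * c) 2).2 h1
      exact_mod_cast this
    have g2 : (b : ZMod 2) * d = 0 := by
      have := (ZMod.intCast_zmod_eq_zero_iff_dvd (b * d) 2).2 h2
      exact_mod_cast this
    have g3 : (a : ZMod 2) * d - b * c = 1 := by
      have := congrArg (fun z : ℤ => (z : ZMod 2)) hdet
      simpa using this
    have := CAT_par _ _ _ _ g1 g2 g3
    exact_mod_cast this

end

end Pool.Agent.QS
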