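import Pool.Agent.helper4.QS.Spec

/-!
# qs: NRM (helper77)
-/

set_option autoImplicit false

open scoped BigOperators ComplexOrder

namespace Pool.Agent.QS

open Pool.Agent.helper86.CM

noncomputable section

theorem NRM_smul (a : ℤ) (n : Lat 1) : ‖a • n‖ ≤ |(a : ℝ)| * ‖n‖ := by
  rw [pi_norm_le_iff_of_nonneg (by positivity)]
  intro i
  rw [Pi.smul_apply, smul_eq_mul, norm_mul, ← Int.norm_eq_abs]
  exact mul_le_mul_of_nonneg_left (norm_le_pi_norm n i) (norm_nonneg _)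

theorem NRM_lin (B : Lat 1 ≃ₗ[ℤ] Lat 1) : ∃ K : ℝ, 0 ≤ K ∧ ∀ n, ‖B n‖ ≤ K * ‖n‖ := by
  refine ⟨‖B (Pi.single (Sum.inl 0) 1)‖ + ‖B (Pi.single (Sum.inr 0) 1)‖, by positivity, fun n => ?_⟩
  have e : n = n (Sum.inl 0) • (Pi.single (Sum.inl 0) 1 : Lat 1) +
      n (Sum.inr 0) • (Pi.single (Sum.inr 0) 1 : Lat 1) := by
    funext i
    rcases i with i | i
    · rw [Subsingleton.elim i 0]
      simp
    · rw [Subsingleton.elim i 0]
      simp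
  have h1 : ‖B n‖ ≤ |(n (Sum.inl 0) : ℝ)| * ‖B (Pi.single (Sum.inl 0) 1)‖ +
      |(n (Sum.inr 0) : ℝ)| * ‖B (Pi.single (Sum.inr 0) 1)‖ := by
    conv_lhs => rw [e]
    rw [map_add, map_smul, map_smul]
    exact (norm_add_le _ _).trans (add_le_add (NRM_smul _ _) (NRM_smul _ _))
  have h2 : |(n (Sum.inl 0) : ℝ)| ≤ ‖n‖ := by
    rw [← Int.norm_eq_abs]; exact norm_le_pi_norm n _
  have h3 : |(n (Sum.inr 0) : ℝ)| ≤ ‖n‖ := by
    rw [← Int.norm_eq_abs]; exact norm_le_pi_norm n _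
  have h4 := mul_le_mul_of_nonneg_right h2 (norm_nonneg (B (Pi.single (Sum.inl 0) 1)))
  have h5 := mul_le_mul_of_nonneg_right h3 (norm_nonneg (B (Pi.single (Sum.inr 0) 1)))
  linarith

theorem NRM_inv {B : Lat 1 ≃ₗ[ℤ] Lat 1} {t : ℤ} (h : Cat B t) : Cat B⁻¹ t := by
  have hB : ∀ n, B (B⁻¹ n) = n := fun n => B.apply_symm_apply n
  refine ⟨fun m n => ?_, fun n => ?_, h.ev, h.lt⟩
  · rw [← h.om (B⁻¹ m) (B⁻¹ n), hB, hB]
  · apply B.injective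
    apply B.injective
    rw [hB, hB, map_sub, map_sub, map_smul, map_smul, hB, h.ch]
    abel

theorem NRM_pos (hLUA : LUA_stmt) (hLUP : LUP_stmt) (hLUL : LUL_stmt) {B : Lat 1 ≃ₗ[ℤ] Lat 1} {t : ℤ}
    (h : Cat B t) : ∃ C : ℝ, 1 ≤ C ∧ ∀ (k : ℕ) (n : Lat 1),
    ‖pw B (k : ℤ) n‖ ≤ C * (lam t) ^ k * ‖n‖ := by
  obtain ⟨K, hK, hKn⟩ := NRM_lin B
  obtain ⟨⟨hl, -, -⟩, -, hu, -⟩ := hLUL t h.lt
  refine ⟨2 * (K + 1), by linarith, fun k n => ?_⟩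
  obtain _ | k := k
  · have h0 : pw B ((0 : ℕ) : ℤ) n = n := by
      rw [Nat.cast_zero, pw_zero]
    rw [h0, pow_zero, mul_one]
    have := norm_nonneg n
    nlinarith
  · rw [hLUA B t h k n]
    obtain ⟨p1, p2⟩ := hLUP t h.lt k
    obtain ⟨p3, -⟩ := hLUP t h.lt (k + 1)
    have q1 : |((lu t (k + 1) : ℤ) : ℝ)| ≤ 2 * (lam t) ^ k := by
      rw [abs_of_nonneg (by exact_mod_cast p3)]
      exact (hu k).2
    have q2 : |((lu t k : ℤ) : ℝ)| ≤ 2 * (lam t) ^ k := by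
      rw [abs_of_nonneg (by exact_mod_cast p1)]
      refine le_trans ?_ (hu k).2
      exact_mod_cast p2.le
    have r1 : ‖lu t (k + 1) • B n‖ ≤ (2 * (lam t) ^ k) * (K * ‖n‖) :=
      (NRM_smul _ _).trans (mul_le_mul q1 (hKn n) (norm_nonneg _) (by positivity))
    have r2 : ‖lu t k • n‖ ≤ (2 * (lam t) ^ k) * ‖n‖ :=
      (NRM_smul _ _).trans (mul_le_mul_of_nonneg_right q2 (norm_nonneg _))
    have r3 : ‖lu t (k + 1) • B n - lu t k • n‖ ≤ 2 * (K + 1) * (lam t) ^ k * ‖n‖ := by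
      refine (norm_sub_le _ _).trans ?_
      nlinarith
    refine r3.trans ?_
    have r4 : (lam t) ^ k ≤ (lam t) ^ (k + 1) := by
      rw [pow_succ]
      have : 0 ≤ (lam t) ^ k := by positivity
      nlinarith
    gcongr

theorem NRM (hLUA : LUA_stmt) (hLUP : LUP_stmt) (hLUL : LUL_stmt) : NRM_stmt := by
  intro B t h
  obtain ⟨C₁, hC₁, h₁⟩ := NRM_pos hLUA hLUP hLUL h
  obtain ⟨C₂, hC₂, h₂⟩ := NRM_pos hLUA hLUP hLUL (NRM_inv h)
  obtain ⟨⟨hl, -, -⟩, -⟩ := hLUL t h.lt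
  refine ⟨max C₁ C₂, le_trans hC₁ (le_max_left _ _), fun e n => ?_⟩
  have hlp : 0 < lam t := by linarith
  obtain ⟨k, rfl | rfl⟩ := Int.eq_nat_or_neg e
  · rw [Int.natAbs_natCast]
    refine (h₁ k n).trans ?_
    have := le_max_left C₁ C₂
    gcongr
  · rw [Int.natAbs_neg, Int.natAbs_natCast]
    have e1 : pw B (-(k : ℤ)) n = pw B⁻¹ (k : ℤ) n := by
      rw [pw_apply, pw_apply, inv_zpow']
    rw [e1]
    refine (h₂ k n).trans ?_
    have := le_max_right C₁ C₂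
    gcongr

end

end Pool.Agent.QS
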