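import Pool.Agent.helper4.QS.Spec

/-!
# qs: QF0 (helper77)
-/

set_option autoImplicit false

namespace Pool.Agent.QS

theorem QF0 : QF0_stmt := by
  intro t ht z y h0
  have h : (2 * z + t * y) ^ 2 = (t ^ 2 - 4) * y ^ 2 := by linear_combination 4 * h0
  by_cases hy : y = 0
  · subst hy
    have : z ^ 2 = 0 := by linear_combination h0
    exact ⟨pow_eq_zero_iff (two_ne_zero) |>.1 this, rfl⟩
  · exfalso
    have hd : y ^ 2 ∣ (2 * z + t * y) ^ 2 := ⟨t ^ 2 - 4, by rw [h]; ring⟩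
    obtain ⟨s, hs⟩ := (Int.pow_dvd_pow_iff two_ne_zero).1 hd
    have hss : s ^ 2 = t ^ 2 - 4 := by
      have h1 : y ^ 2 * s ^ 2 = y ^ 2 * (t ^ 2 - 4) := by
        rw [← mul_pow, ← hs, h]; ring
      exact mul_left_cancel₀ (pow_ne_zero 2 hy) h1
    have hu : |s| ^ 2 = t ^ 2 - 4 := by rw [sq_abs, hss]
    have hu0 := abs_nonneg s
    rcases le_or_gt t |s| with hc | hc
    · nlinarith
    · have : |s| ≤ t - 1 := by omega
      nlinarith

end Pool.Agent.QS
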